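import Pool.Agent.V11257.Zs3

/-!
# A space that is not realcompact although its real z-ultrafilters are fixed

In a symmetric model of ZF there is a sequence of sets `A n`, each of them a copy of the set of the
integers up to translations, such that every set is invariant under the translations of almost all
of them. The space is the ordered space `p 0 < A 0 < p 1 < A 1 < ...`. Every continuous real
function on it has the same value at almost all points `p n`, so that it has a limit at infinity,
and the space is not realcompact. A z-ultrafilter that is not fixed contains the closed final
segments `[p n, ∞)`, and they have an empty intersection.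
-/

namespace Pool.Agent.Results.MP_05264e_lc.FixedNotRealcompact

open FirstOrder FirstOrder.Language
open Pool.Agent.Helper672.Plain (LSet El)
open Pool.Agent.H635Amen (ZF IsReals)
open Pool.Agent.H310Top (IsTopology)
open Pool.Agent.V11246 (HasCip IsFixed)
open Pool.Agent.V11257Z

universe u

/-- In the model `N` there is a Tychonoff space `x` with the topology `t` that is not realcompact
although every z-ultrafilter on it with the countable intersection property is fixed. (The real
line `r` of the model is unique up to isomorphism.) -/
def HasSpace (N : Type u) [LSet.Structure N] : Prop :=
  ∃ x t : N, IsTopology t x ∧ IsTychonoff t x ∧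
    (∀ (r : N) [Field (El r)] [LinearOrder (El r)] [IsStrictOrderedRing (El r)], IsReals r →
      ∀ F, IsZUltra r t x F → HasCip F → IsFixed F) ∧ ¬ IsRealcompact t x

/-- There is a model of ZF with such a space; and for every model of ZF there is one (in the same
universe). -/
theorem result : (∃ (N : Type 1) (_ : LSet.Structure N), ZF N ∧ HasSpace N) ∧
    ∀ (M : Type u) [LSet.Structure M], ZF M →
      ∃ (N : Type u) (_ : LSet.Structure N), ZF N ∧ HasSpace N := by
  refine ⟨exists_of_forall fun M _ hM => ?_, fun M _ hM => ?_⟩
  · obtain ⟨N, i, hN, hT⟩ := exists_zt M hM
    exact ⟨N, i, hN, space_zu_of hT⟩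
  · obtain ⟨N, i, hN, hT⟩ := exists_zt M hM
    exact ⟨N, i, hN, space_zu_of hT⟩

end Pool.Agent.Results.MP_05264e_lc.FixedNotRealcompact
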